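import Pool.Agent.Helper5.KPA.StN

/-!
# PROJECT KP, chapter A, module ANN: graded Noether normalization by elements of degree one
-/

set_option autoImplicit false

namespace Pool.Agent.Helper15.KPA

open Pool.Agent.Helper5.KPA Pool.Agent.Helper52.KP MvPolynomial

section

variable {S : Type} [CommRing S] [Algebra ℂ S] {G : ℕ → Submodule ℂ S}

/-- the part of degree `n` of the ideal generated by the `b i` -/
def TT (G : ℕ → Submodule ℂ S) {e : ℕ} (b : Fin e → S) (n : ℕ) : Submodule ℂ S :=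
  Submodule.span ℂ {x | ∃ i k, ∃ y ∈ G k, k + 1 = n ∧ x = b i * y}

theorem TT_mul (hG : GrA G) {e : ℕ} (b : Fin e → S) {n m : ℕ} {x y : S} (hx : x ∈ TT G b n)
    (hy : y ∈ G m) : x * y ∈ TT G b (n + m) := by
  unfold TT at hx ⊢
  induction hx using Submodule.span_induction with
  | mem x h =>
    obtain ⟨i, k, z, hz, hk, rfl⟩ := h
    exact Submodule.subset_span ⟨i, k + m, z * y, hG.mul _ _ _ _ hz hy, by omega, by ring⟩
  | zero =>
    rw [zero_mul]
    exact Submodule.zero_mem _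
  | add x z _ _ hx hz =>
    rw [add_mul]
    exact Submodule.add_mem _ hx hz
  | smul c x _ hx =>
    rw [smul_mul_assoc]
    exact Submodule.smul_mem _ _ hx

theorem TT_succ {e : ℕ} (b : Fin e → S) {k : ℕ} {x : S} (hx : x ∈ TT G b (k + 1)) :
    ∃ y : Fin e → S, (∀ i, y i ∈ G k) ∧ x = ∑ i, b i * y i := by
  unfold TT at hx
  induction hx using Submodule.span_induction with
  | mem x h =>
    obtain ⟨i, k', z, hz, hk, rfl⟩ := h
    obtain rfl : k' = k := by omega
    refine ⟨fun l => if l = i then z else 0, ?_, ?_⟩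
    · intro l
      by_cases h : l = i
      · simp only [h, if_true]
        exact hz
      · simp only [h, if_false]
        exact Submodule.zero_mem _
    · simp only [mul_ite, mul_zero, Finset.sum_ite_eq', Finset.mem_univ, if_true]
  | zero => exact ⟨fun _ => 0, fun _ => Submodule.zero_mem _, by simp⟩
  | add x z _ _ hx hz =>
    obtain ⟨y, hy, rfl⟩ := hx
    obtain ⟨y', hy', rfl⟩ := hz
    exact ⟨fun i => y i + y' i, fun i => Submodule.add_mem _ (hy i) (hy' i), by
      simp only [mul_add, Finset.sum_add_distrib]⟩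
  | smul c x _ hx =>
    obtain ⟨y, hy, rfl⟩ := hx
    exact ⟨fun i => c • y i, fun i => Submodule.smul_mem _ _ (hy i), by
      simp only [Finset.smul_sum, mul_smul_comm]⟩

theorem one_mem' (hG : GrA G) : (1 : S) ∈ G 0 := by
  rw [hG.zero]
  exact Submodule.mem_span_singleton_self 1

/-- `x` of degree `n` is congruent to `α a'^n` -/
def Cg (G : ℕ → Submodule ℂ S) {e : ℕ} (b : Fin e → S) (a' : S) (n : ℕ) (x : S) (α : ℂ) : Prop :=
  x ∈ G n ∧ x - α • a' ^ n ∈ TT G b n

theorem pow_mem' (hG : GrA G) {x : S} (hx : x ∈ G 1) (n : ℕ) : x ^ n ∈ G n := by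
  induction n with
  | zero =>
    rw [pow_zero]
    exact one_mem' hG
  | succ n ih =>
    rw [pow_succ]
    exact hG.mul _ _ _ _ ih hx

theorem Cg.mul (hG : GrA G) {e : ℕ} {b : Fin e → S} {a' : S} (ha' : a' ∈ G 1) {n m : ℕ} {x y : S}
    {α β : ℂ} (hx : Cg G b a' n x α) (hy : Cg G b a' m y β) :
    Cg G b a' (n + m) (x * y) (α * β) := by
  refine ⟨hG.mul _ _ _ _ hx.1 hy.1, ?_⟩
  have e1 : x * y - (α * β) • a' ^ (n + m) =
      (x - α • a' ^ n) * y + α • ((y - β • a' ^ m) * a' ^ n) := by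
    simp only [Algebra.smul_def, map_mul]
    ring
  rw [e1]
  refine Submodule.add_mem _ (TT_mul hG b hx.2 hy.1) (Submodule.smul_mem _ _ ?_)
  have := TT_mul hG b hy.2 (pow_mem' hG ha' n)
  rwa [add_comm] at this

theorem Cg.one (hG : GrA G) {e : ℕ} {b : Fin e → S} {a' : S} : Cg G b a' 0 1 1 := by
  refine ⟨one_mem' hG, ?_⟩
  rw [pow_zero, one_smul, sub_self]
  exact Submodule.zero_mem _

theorem Cg.pow (hG : GrA G) {e : ℕ} {b : Fin e → S} {a' : S} (ha' : a' ∈ G 1) {x : S}
    {α : ℂ} (hx : Cg G b a' 1 x α) (n : ℕ) : Cg G b a' n (x ^ n) (α ^ n) := by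
  induction n with
  | zero =>
    rw [pow_zero, pow_zero]
    exact Cg.one hG
  | succ n ih =>
    rw [pow_succ, pow_succ]
    exact Cg.mul hG ha' ih hx

theorem Cg.prod (hG : GrA G) {e : ℕ} {b : Fin e → S} {a' : S} (ha' : a' ∈ G 1) {ι : Type}
    (s : Finset ι) (x : ι → S) (α : ι → ℂ) (d : ι → ℕ) (hx : ∀ i, Cg G b a' 1 (x i) (α i)) :
    Cg G b a' (∑ i ∈ s, d i) (∏ i ∈ s, x i ^ d i) (∏ i ∈ s, α i ^ d i) := by
  classical
  induction s using Finset.induction_on with
  | empty =>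
    simp only [Finset.sum_empty, Finset.prod_empty]
    exact Cg.one hG
  | insert i s hi ih =>
    rw [Finset.sum_insert hi, Finset.prod_insert hi, Finset.prod_insert hi]
    exact Cg.mul hG ha' (Cg.pow hG ha' (hx i) _) ih

theorem key (hG : GrA G) {e e' : ℕ} {a : Fin e → S} {b : Fin e' → S} {a' : S} {c : Fin e → ℂ}
    (ha' : a' ∈ G 1) (hl : ∀ l, Cg G b a' 1 (a l) (c l)) {h : MvPolynomial (Fin e) ℂ} {j : ℕ}
    (hh : h.IsHomogeneous j) : Cg G b a' j (aeval a h) (eval c h) := by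
  have hd : ∀ d ∈ h.support, Cg G b a' j (∏ i, a i ^ d i) (∏ i, c i ^ d i) := by
    intro d hd
    have h1 : ∑ i, d i = j := by
      by_contra h2
      rw [← Finsupp.degree_eq_sum] at h2
      exact (mem_support_iff.1 hd) (hh.coeff_eq_zero h2)
    have := Cg.prod hG ha' Finset.univ a c d hl
    rwa [h1] at this
  have e0 : aeval a h = ∑ d ∈ h.support, coeff d h • ∏ i, a i ^ d i := by
    rw [aeval_def, eval₂_eq']
    refine Finset.sum_congr rfl fun d _ => ?_
    rw [Algebra.smul_def]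
  refine ⟨?_, ?_⟩
  · rw [e0]
    exact Submodule.sum_mem _ fun d hd' => Submodule.smul_mem _ _ (hd d hd').1
  · have e1 : aeval a h - eval c h • a' ^ j =
        ∑ d ∈ h.support, coeff d h • ((∏ i, a i ^ d i) - (∏ i, c i ^ d i) • a' ^ j) := by
      rw [e0, eval_eq', Finset.sum_smul, ← Finset.sum_sub_distrib]
      refine Finset.sum_congr rfl fun d _ => ?_
      rw [smul_sub, smul_smul]
    rw [e1]
    exact Submodule.sum_mem _ fun d hd' => Submodule.smul_mem _ _ (hd d hd').2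

theorem iter (hG : GrA G) {e' : ℕ} {b : Fin e' → S} {a' : S} (ha' : a' ∈ G 1) {D : ℕ}
    (hD : ∀ k, D ≤ k → ∀ x ∈ G (k + 1), ∃ y ∈ G k, x - a' * y ∈ TT G b (k + 1)) (n k : ℕ)
    (hk : D ≤ k) : ∀ x ∈ G (k + n), ∃ y ∈ G k, x - a' ^ n * y ∈ TT G b (k + n) := by
  induction n with
  | zero =>
    intro x hx
    refine ⟨x, hx, ?_⟩
    rw [pow_zero, one_mul, sub_self]
    exact Submodule.zero_mem _
  | succ n ih =>
    intro x hx
    obtain ⟨y, hy, h1⟩ := hD (k + n) (by omega) x hx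
    obtain ⟨z, hz, h2⟩ := ih y hy
    refine ⟨z, hz, ?_⟩
    have e1 : x - a' ^ (n + 1) * z = (x - a' * y) + (y - a' ^ n * z) * a' := by ring
    rw [e1]
    have h3 := TT_mul hG b h2 ha'
    exact Submodule.add_mem _ h1 h3

/-- finite generation -/
def Fg (G : ℕ → Submodule ℂ S) {e : ℕ} (a : Fin e → S) : Prop :=
  ∃ D : ℕ, ∀ k, D ≤ k → ∀ x ∈ G (k + 1), ∃ y : Fin e → S, (∀ i, y i ∈ G k) ∧
    x = ∑ i, a i * y i

theorem start (hG : GrA G) : ∃ (e : ℕ) (a : Fin e → S), (∀ i, a i ∈ G 1) ∧ Fg G a := by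
  have := hG.fd 1
  obtain ⟨bs, hbs⟩ : ∃ bs : Module.Basis (Fin (Module.finrank ℂ (G 1))) ℂ (G 1),
    bs = Module.finBasis ℂ (G 1) := ⟨_, rfl⟩
  refine ⟨_, fun i => (bs i : S), fun i => (bs i).2, 0, fun k _ x hx => ?_⟩
  have h1 : x ∈ TT G (fun i => (bs i : S)) (k + 1) := by
    rw [hG.gen k] at hx
    refine (Submodule.span_le.2 ?_) hx
    rintro _ ⟨x, hx, y, hy, rfl⟩
    have e1 : y = ∑ i, (bs.repr ⟨y, hy⟩ i) • (bs i : S) := by
      have := congrArg (fun w : G 1 => (w : S)) (bs.sum_repr ⟨y, hy⟩)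
      simp only [Submodule.coe_sum, Submodule.coe_smul] at this
      exact this.symm
    rw [SetLike.mem_coe, e1, Finset.mul_sum]
    refine Submodule.sum_mem _ fun i _ => ?_
    rw [mul_smul_comm]
    refine Submodule.smul_mem _ _ (Submodule.subset_span ⟨i, k, x, hx, rfl, mul_comm _ _⟩)
  exact TT_succ _ h1

theorem red [IsDomain S] (hG : GrA G) {e : ℕ} (a : Fin e → S) (ha : ∀ i, a i ∈ G 1)
    (hfg : Fg G a) (hai : ¬ AlgebraicIndependent ℂ a) :
    ∃ e' < e, ∃ b : Fin e' → S, (∀ i, b i ∈ G 1) ∧ Fg G b := by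
  classical
  -- a homogeneous relation
  obtain ⟨h0, hh0, h00⟩ : ∃ h : MvPolynomial (Fin e) ℂ, aeval a h = 0 ∧ h ≠ 0 := by
    rw [algebraicIndependent_iff] at hai
    push Not at hai
    exact hai
  have hcg0 : ∀ (p : MvPolynomial (Fin e) ℂ) (j : ℕ), p.IsHomogeneous j → aeval a p ∈ G j := by
    intro p j hp
    rw [aeval_def, eval₂_eq']
    refine Submodule.sum_mem _ fun d hd => ?_
    rw [← Algebra.smul_def]
    refine Submodule.smul_mem _ _ ?_
    have h1 : ∑ i, d i = j := by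
      by_contra h2
      rw [← Finsupp.degree_eq_sum] at h2
      exact (mem_support_iff.1 hd) (hp.coeff_eq_zero h2)
    rw [← h1]
    have : ∀ s : Finset (Fin e), ∏ i ∈ s, a i ^ d i ∈ G (∑ i ∈ s, d i) := by
      intro s
      induction s using Finset.induction_on with
      | empty =>
        simp only [Finset.sum_empty, Finset.prod_empty]
        exact one_mem' hG
      | insert i s hi ih =>
        rw [Finset.sum_insert hi, Finset.prod_insert hi]
        exact hG.mul _ _ _ _ (pow_mem' hG (ha i) _) ih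
    exact this Finset.univ
  have hcomp : ∀ j, aeval a (homogeneousComponent j h0) = 0 := by
    intro j
    have h1 := (iSupIndep_iff_finsetSum_eq_zero_imp_eq_zero G).1 hG.ind
      (Finset.range (h0.totalDegree + 1)) (fun j => aeval a (homogeneousComponent j h0))
      (fun i _ => hcg0 _ i (homogeneousComponent_isHomogeneous i h0)) (by
        rw [← map_sum, sum_homogeneousComponent, hh0])
    by_cases hj : j ∈ Finset.range (h0.totalDegree + 1)
    · exact h1 j hj
    · rw [homogeneousComponent_eq_zero, map_zero]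
      simp only [Finset.mem_range] at hj
      omega
  obtain ⟨j, hj⟩ : ∃ j, homogeneousComponent j h0 ≠ 0 := by
    by_contra hcon
    push Not at hcon
    apply h00
    rw [← sum_homogeneousComponent (φ := h0)]
    exact Finset.sum_eq_zero fun i _ => hcon i
  obtain ⟨h, hhd⟩ : ∃ h, h = homogeneousComponent j h0 := ⟨_, rfl⟩
  have hhom : h.IsHomogeneous j := by
    rw [hhd]
    exact homogeneousComponent_isHomogeneous j h0
  have hne : h ≠ 0 := by rw [hhd]; exact hj
  have hz : aeval a h = 0 := by rw [hhd]; exact hcomp j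
  obtain ⟨c, hc⟩ : ∃ c : Fin e → ℂ, eval c h ≠ 0 := by
    by_contra hcon
    push Not at hcon
    exact hne (MvPolynomial.funext fun x => by rw [hcon x, map_zero])
  -- the degree is positive
  have hj0 : j ≠ 0 := by
    rintro rfl
    have h1 : h = C (coeff 0 h0) := by
      rw [hhd, homogeneousComponent_zero]
    rw [h1] at hz hne
    rw [aeval_C] at hz
    have h2 := (algebraMap ℂ S).injective (hz.trans (map_zero _).symm)
    rw [h2, C_0] at hne
    exact hne rfl
  have hc0 : c ≠ 0 := by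
    rintro rfl
    apply hc
    rw [eval_zero]
    exact hhom.coeff_eq_zero (by rw [map_zero]; exact hj0.symm)
  obtain ⟨i, hi⟩ := Function.ne_iff.1 hc0
  rw [Pi.zero_apply] at hi
  obtain ⟨e', rfl⟩ : ∃ e', e = e' + 1 := ⟨e - 1, by have := i.2; omega⟩
  refine ⟨e', Nat.lt_succ_self _, ?_⟩
  obtain ⟨a', ha'd⟩ : ∃ a' : S, a' = (c i)⁻¹ • a i := ⟨_, rfl⟩
  have ha' : a' ∈ G 1 := by
    rw [ha'd]
    exact Submodule.smul_mem _ _ (ha i)
  obtain ⟨b, hb⟩ : ∃ b : Fin e' → S, b = fun l => a (i.succAbove l) - c (i.succAbove l) • a' :=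
    ⟨_, rfl⟩
  have hbG : ∀ l, b l ∈ G 1 := by
    intro l
    rw [hb]
    exact Submodule.sub_mem _ (ha _) (Submodule.smul_mem _ _ ha')
  refine ⟨b, hbG, ?_⟩
  have hl : ∀ l, Cg G b a' 1 (a l) (c l) := by
    intro l
    refine ⟨ha l, ?_⟩
    rw [pow_one]
    rcases eq_or_ne l i with rfl | hli
    · rw [ha'd, smul_smul, mul_inv_cancel₀ hi, one_smul, sub_self]
      exact Submodule.zero_mem _
    · obtain ⟨l', rfl⟩ := Fin.exists_succAbove_eq hli
      refine Submodule.subset_span ⟨l', 0, 1, one_mem' hG, rfl, ?_⟩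
      rw [mul_one, hb]
  have hk := key hG ha' hl hhom
  have haj : a' ^ j ∈ TT G b j := by
    have h1 := hk.2
    rw [hz, zero_sub] at h1
    have h2 := Submodule.smul_mem _ (eval c h)⁻¹ ((Submodule.neg_mem_iff _).1 h1)
    rwa [smul_smul, inv_mul_cancel₀ hc, one_smul] at h2
  obtain ⟨D, hD⟩ := hfg
  have hD' : ∀ k, D ≤ k → ∀ x ∈ G (k + 1), ∃ y ∈ G k, x - a' * y ∈ TT G b (k + 1) := by
    intro k hk x hx
    obtain ⟨y, hy, hxy⟩ := hD k hk x hx
    refine ⟨∑ l, c l • y l, Submodule.sum_mem _ fun l _ => Submodule.smul_mem _ _ (hy l), ?_⟩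
    have e1 : x - a' * ∑ l, c l • y l = ∑ l, (a l - c l • a') * y l := by
      rw [hxy, Finset.mul_sum, ← Finset.sum_sub_distrib]
      refine Finset.sum_congr rfl fun l _ => ?_
      rw [sub_mul, mul_smul_comm, smul_mul_assoc]
    rw [e1]
    refine Submodule.sum_mem _ fun l _ => ?_
    have h1 := (hl l).2
    rw [pow_one] at h1
    have h2 := TT_mul hG b h1 (hy l)
    rwa [add_comm] at h2
  refine ⟨D + j, fun k hk' x hx => ?_⟩
  obtain ⟨k', hk''⟩ : ∃ k', k + 1 = k' + j ∧ D ≤ k' := ⟨k + 1 - j, by omega, by omega⟩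
  rw [hk''.1] at hx
  obtain ⟨y, hy, h1⟩ := iter hG ha' hD' j k' hk''.2 x hx
  have h2 := TT_mul hG b haj hy
  rw [add_comm] at h2
  have h3 := Submodule.add_mem _ h1 h2
  rw [sub_add_cancel, ← hk''.1] at h3
  exact TT_succ b h3

end

theorem hANN : StANN := by
  intro S _ _ _ G hG
  classical
  have hP := start hG
  obtain ⟨a, ha, hfg⟩ := Nat.find_spec hP
  refine ⟨Nat.find hP, a, ha, ?_, hfg⟩
  by_contra hai
  obtain ⟨e', he', b, hb⟩ := red hG a ha hfg hai
  exact Nat.find_min hP he' ⟨b, hb⟩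

end Pool.Agent.Helper15.KPA
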