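import Pool.Agent.Helper5.KPA.StP

/-!
# PROJECT KP, chapter A, module MSU: `M^(p)` is a finite-dimensional subspace
-/

set_option autoImplicit false

namespace Pool.Agent.Helper15.KPA

open Pool.Agent.Helper5.KPA Pool.Agent.Helper52.KP MvPolynomial

theorem QR_mul {C : Cone} (hC : Good C) {a a' : ℕ} {x y : QQ C.m} (hx : x ∈ QR C a)
    (hy : y ∈ QR C a') : x * y ∈ QR C (a + a') := by
  intro l
  rw [Polynomial.coeff_mul]
  exact Submodule.sum_mem _ fun p _ => hC.mul _ _ _ _ (hx p.1) (hy p.2)

theorem QR_C {C : Cone} {a : ℕ} {f : MvPolynomial (Fin C.m) ℂ} (hf : f ∈ C.R a) :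
    Polynomial.C f ∈ QR C a := by
  intro l
  rw [Polynomial.coeff_C]
  split_ifs
  · exact hf
  · exact Submodule.zero_mem _

theorem QR_one {C : Cone} (hC : Good C) : (1 : QQ C.m) ∈ QR C 0 := by
  have := QR_C hC.one
  rwa [map_one] at this

theorem QR_X {C : Cone} (hC : Good C) : (Polynomial.X : QQ C.m) ∈ QR C 0 := by
  intro l
  rw [Polynomial.coeff_X]
  split_ifs
  · exact hC.one
  · exact Submodule.zero_mem _

theorem QR_Xpow {C : Cone} (hC : Good C) (n : ℕ) : (Polynomial.X ^ n : QQ C.m) ∈ QR C 0 := by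
  induction n with
  | zero =>
    rw [pow_zero]
    exact QR_one hC
  | succ n ih =>
    rw [pow_succ]
    exact QR_mul hC ih (QR_X hC)

theorem QR_pow {C : Cone} (hC : Good C) {a : ℕ} {x : QQ C.m} (hx : x ∈ QR C a) (n : ℕ) :
    x ^ n ∈ QR C (a * n) := by
  induction n with
  | zero =>
    rw [pow_zero, mul_zero]
    exact QR_one hC
  | succ n ih =>
    rw [pow_succ, Nat.mul_succ]
    exact QR_mul hC ih hx

theorem v_Xpow {C : Cone} (hC : Good C) {r : ℕ} {F : ℕ → ℕ → Submodule ℂ (MvPolynomial (Fin C.m) ℂ)}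
    {h : ℕ} {v : Fin h → QQ C.m → ℤ} {b : Fin h → ℕ} (hV : VD C r F h v b) (i : Fin h) (n : ℕ) :
    v i (Polynomial.X ^ n) = -((n : ℤ) * b i) := by
  induction n with
  | zero =>
    rw [pow_zero]
    have h1 := hV.cst i 1 one_ne_zero
    rw [C_1, map_one] at h1
    rw [h1]
    simp
  | succ n ih =>
    have h0 : C.n * r * 0 = 0 := mul_zero _
    rw [pow_succ, hV.mul i 0 0 _ _ (by rw [h0]; exact QR_Xpow hC n) (by rw [h0]; exact QR_X hC)
      (pow_ne_zero n Polynomial.X_ne_zero) Polynomial.X_ne_zero, ih, hV.tau i]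
    push_cast
    ring

theorem F_le {C : Cone} {r : ℕ} {F : ℕ → ℕ → Submodule ℂ (MvPolynomial (Fin C.m) ℂ)}
    (hF : NF C r F) (k l : ℕ) : F k l ≤ C.R (C.n * r * k) := by
  induction l with
  | zero => rw [hF.zero k]
  | succ l ih => exact (hF.anti k l).trans ih

theorem hMSU (hMVV : StMVV) (hAGR : StAGR) : StMSU := by
  intro C hC r F hF h v b hV u p k hpk
  have hr : 0 < r := hF.hr
  have hM := hMVV C hC r F hF h v b hV
  have hiffG : ∀ p, p ≤ r * k → ∀ x, x ∈ MM C r v u p k ↔ InM C r v u p k x := by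
    intro p hpk
    have eA : C.n * r * k - C.n * p = C.n * (r * k - p) := by
      rw [Nat.mul_sub, mul_assoc]
    -- closure properties
    have h0 : InM C r v u p k 0 :=
      ⟨Submodule.zero_mem _, fun l _ => by rw [Polynomial.coeff_zero], fun h => absurd rfl h⟩
    have hadd : ∀ x y, InM C r v u p k x → InM C r v u p k y → InM C r v u p k (x + y) := by
      intro x y hx hy
      refine ⟨Submodule.add_mem _ hx.1 hy.1, fun l hl => ?_, fun hxy i => ?_⟩
      · rw [Polynomial.coeff_add, hx.2.1 l hl, hy.2.1 l hl, add_zero]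
      · by_cases hx0 : x = 0
        · subst hx0
          rw [zero_add] at hxy ⊢
          exact hy.2.2 hxy i
        by_cases hy0 : y = 0
        · subst hy0
          rw [add_zero] at hxy ⊢
          exact hx.2.2 hxy i
        have h1 := (hM i).2.1 (r * k - p) x y (by rw [← eA]; exact hx.1) (by rw [← eA]; exact hy.1)
          hx0 hy0 hxy
        exact (le_min (hx.2.2 hx0 i) (hy.2.2 hy0 i)).trans h1
    have hsmul : ∀ (c : ℂ) x, InM C r v u p k x → InM C r v u p k (c • x) := by
      intro c x hx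
      refine ⟨Submodule.smul_mem _ _ hx.1, fun l hl => ?_, fun hcx i => ?_⟩
      · rw [Polynomial.coeff_smul, hx.2.1 l hl, smul_zero]
      · have hc0 : c ≠ 0 := by
          rintro rfl
          exact hcx (zero_smul _ _)
        have hx0 : x ≠ 0 := by
          rintro rfl
          exact hcx (smul_zero _)
        rw [(hM i).2.2.2.2 (r * k - p) x c (by rw [← eA]; exact hx.1) hx0 hc0]
        exact hx.2.2 hx0 i
    intro x
    refine ⟨fun hx => ?_, fun hx => Submodule.subset_span hx⟩
    unfold MM at hx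
    induction hx using Submodule.span_induction with
      | mem x h => exact h
      | zero => exact h0
      | add x y _ _ hx hy => exact hadd x y hx hy
      | smul c x _ hx => exact hsmul c x hx
  have hiff := hiffG p hpk
  have eA : C.n * r * k - C.n * p = C.n * (r * k - p) := by
    rw [Nat.mul_sub, mul_assoc]
  refine ⟨hiff, ?_, ?_⟩
  · -- finite dimension
    obtain ⟨-, -, -, L, hL⟩ := hAGR C hC r F hF
    obtain ⟨c, hc⟩ : ∃ c : ℕ, ∀ i, 0 ≤ (c : ℤ) * b i + p * v i (u ^ r) := by
      refine ⟨∑ i, ((p : ℤ) * v i (u ^ r)).natAbs, fun i => ?_⟩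
      have h1 : ((p : ℤ) * v i (u ^ r)).natAbs ≤ ∑ i, ((p : ℤ) * v i (u ^ r)).natAbs :=
        Finset.single_le_sum (f := fun i => ((p : ℤ) * v i (u ^ r)).natAbs)
          (fun i _ => Nat.zero_le _) (Finset.mem_univ i)
      have h2 : (1 : ℤ) ≤ b i := by exact_mod_cast hV.bpos i
      obtain ⟨c', hc'⟩ : ∃ c' : ℕ, c' = ∑ i, ((p : ℤ) * v i (u ^ r)).natAbs := ⟨_, rfl⟩
      rw [← hc'] at h1 ⊢
      have h3 : ((((p : ℤ) * v i (u ^ r)).natAbs : ℕ) : ℤ) ≤ c' := by exact_mod_cast h1
      rw [Int.natCast_natAbs] at h3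
      have h4 := neg_abs_le ((p : ℤ) * v i (u ^ r))
      have h5 : (c' : ℤ) ≤ c' * b i := by
        have : (0 : ℤ) ≤ c' := Int.natCast_nonneg _
        nlinarith
      linarith
    obtain ⟨N, hN⟩ : ∃ N : ℕ, N = c + (r * k - p) * L + 1 := ⟨_, rfl⟩
    have hbd : ∀ x, InM C r v u p k x → ∀ l, N ≤ l → x.coeff l = 0 := by
      intro x hx l hl
      by_contra hxl
      have hx0 : x ≠ 0 := by
        rintro rfl
        exact hxl (Polynomial.coeff_zero l)
      have hrl : N ≤ r * l := hl.trans (Nat.le_mul_of_pos_left l hr)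
      have hxQ : x ∈ QR C (C.n * (r * k - p)) := by rw [← eA]; exact hx.1
      obtain ⟨lam, hlam⟩ : ∃ lam : ℕ, r * l = lam + c := ⟨r * l - c, by omega⟩
      have hlam2 : (r * k - p) * L + 1 ≤ lam := by omega
      have hf : x.coeff l ∈ C.R (C.n * (r * k - p)) := hxQ l
      have hq : Polynomial.C (x.coeff l) ^ r ∈ QR C (C.n * r * (r * k - p)) := by
        have := QR_pow hC (QR_C hf) r
        have e : C.n * (r * k - p) * r = C.n * r * (r * k - p) := by ring
        rwa [e] at this
      have hq0 : Polynomial.C (x.coeff l) ^ r ≠ 0 :=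
        pow_ne_zero r (by rw [Ne, Polynomial.C_eq_zero]; exact hxl)
      have hX0 : (Polynomial.X ^ lam : QQ C.m) ≠ 0 := pow_ne_zero lam Polynomial.X_ne_zero
      have hX : (Polynomial.X ^ lam : QQ C.m) ∈ QR C (C.n * r * 0) := by
        rw [mul_zero]
        exact QR_Xpow hC lam
      have hmem : Polynomial.C (x.coeff l) ^ r * Polynomial.X ^ lam ∈ BB F (r * k - p) := by
        refine hV.mem (r * k - p) _ ?_ (mul_ne_zero hq0 hX0) fun i => ?_
        · have := QR_mul hC hq (QR_Xpow hC lam)
          rwa [add_zero] at this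
        · rw [hV.mul i (r * k - p) 0 _ _ hq hX hq0 hX0, v_Xpow hC hV]
          have h1 := (hM i).2.2.2.1 (r * k - p) x l hxQ hxl
          have h2 := hx.2.2 hx0 i
          have h3 := hc i
          have h4 : (r : ℤ) * l = lam + c := by exact_mod_cast hlam
          rw [h4] at h1
          linarith
      have h5 := hmem lam
      rw [← Polynomial.C_pow, Polynomial.coeff_C_mul_X_pow, if_pos rfl, hL _ _ hlam2,
        Submodule.mem_bot] at h5
      exact hxl (pow_eq_zero_iff hr.ne' |>.1 h5)
    have := hC.fd (C.n * (r * k - p))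
    -- the range of a linear map
    obtain ⟨T, hT⟩ : ∃ T : (Fin N → C.R (C.n * (r * k - p))) →ₗ[ℂ] QQ C.m,
        ∀ y, T y = ∑ l, Polynomial.C (y l : MvPolynomial (Fin C.m) ℂ) * Polynomial.X ^ (l : ℕ) := by
      refine ⟨⟨⟨fun y => ∑ l, Polynomial.C (y l : MvPolynomial (Fin C.m) ℂ) *
        Polynomial.X ^ (l : ℕ), ?_⟩, ?_⟩, fun y => rfl⟩
      · intro y z
        rw [← Finset.sum_add_distrib]
        refine Finset.sum_congr rfl fun l _ => ?_
        rw [Pi.add_apply, Submodule.coe_add, map_add, add_mul]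
      · intro a y
        simp only [RingHom.id_apply]
        rw [Finset.smul_sum]
        refine Finset.sum_congr rfl fun l _ => ?_
        rw [Pi.smul_apply, Submodule.coe_smul, ← Polynomial.smul_C, smul_mul_assoc]
    refine Submodule.finiteDimensional_of_le (S₂ := LinearMap.range T) ?_
    intro x hx
    have hx' := (hiff x).1 hx
    have hxQ : x ∈ QR C (C.n * (r * k - p)) := by rw [← eA]; exact hx'.1
    refine ⟨fun l => ⟨x.coeff l, hxQ l⟩, ?_⟩
    rw [hT]
    ext1 l
    rw [Polynomial.finset_sum_coeff]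
    simp only [Polynomial.coeff_C_mul_X_pow]
    by_cases hl : l < N
    · rw [Finset.sum_eq_single (⟨l, hl⟩ : Fin N)]
      · simp
      · intro j _ hj
        rw [if_neg]
        intro h
        exact hj (Fin.ext h.symm)
      · intro h
        exact absurd (Finset.mem_univ _) h
    · rw [hbd x hx' l (by omega)]
      refine Finset.sum_eq_zero fun j _ => ?_
      rw [if_neg]
      have := j.2
      omega
  · ext x
    rw [hiffG 0 (Nat.zero_le _) x]
    constructor
    · intro hx
      have hxQ : x ∈ QR C (C.n * r * k) := by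
        have := hx.1
        rwa [mul_zero, Nat.sub_zero] at this
      by_cases hx0 : x = 0
      · subst hx0
        exact Submodule.zero_mem _
      refine hV.mem k x hxQ hx0 fun i => ?_
      have h1 := hx.2.2 hx0 i
      rw [(hM i).2.2.1 k x hxQ hx0, Nat.cast_zero, zero_mul] at h1
      have h2 : (0 : ℤ) < r := by exact_mod_cast hr
      exact nonneg_of_mul_nonneg_right h1 h2
    · intro hx
      have hxQ : x ∈ QR C (C.n * r * k) := fun l => F_le hF k l (hx l)
      refine ⟨by rw [mul_zero, Nat.sub_zero]; exact hxQ, fun l hl => absurd hl (Nat.not_lt_zero l),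
        fun hx0 i => ?_⟩
      rw [(hM i).2.2.1 k x hxQ hx0, Nat.cast_zero, zero_mul]
      exact mul_nonneg (Int.natCast_nonneg r) (hV.nonneg i k x hx hx0)

end Pool.Agent.Helper15.KPA
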